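import Pool.Agent.R278.Rot.Space

/-!
# Continuity at interior points
-/

open Set Filter Topology
open scoped ENNReal

namespace Pool.Agent.R278.Rot

/-- The real variable lemma behind the continuity of the bounds. -/
theorem up_close {p a b N : ℕ → ℝ} {C η : ℝ} (hη : 0 ≤ η)
    (ha' : ∀ s t, a s - a t ≤ p s + p t) (hb' : ∀ s t, b s - b t ≤ p s + p t)
    (hab : ∀ t, |a t - b t| ≤ η * N t) (ha : ∀ t, |a t| ≤ 3 / 4 * N t)
    (hN : ∀ t, N t ≤ p t + C) (hC : p 0 + N 0 ≤ C) :
    Up p b ≤ Up p a + η * (4 * (2 * C + 1)) := by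
  refine le_of_forall_pos_le_add fun δ hδ => ?_
  set δ' := min δ 1 with hδ'
  have hδ'0 : 0 < δ' := lt_min hδ one_pos
  obtain ⟨t, ht⟩ := exists_lt_of_ciInf_lt
    (show (⨅ t, (p t - a t)) < Up p a + δ' by unfold Up; linarith)
  have h0 : Up p a ≤ p 0 - a 0 := up_le ha' 0
  have h1 := abs_le.1 (ha t)
  have h2 := abs_le.1 (ha 0)
  have hN0 : 0 ≤ N 0 := by
    have := (abs_nonneg _).trans (ha 0)
    linarith
  have hd1 : δ' ≤ 1 := min_le_right _ _
  have hd2 : δ' ≤ δ := min_le_left _ _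
  have h3 : N t ≤ 4 * (2 * C + 1) := by
    have := hN t
    nlinarith [h1.2, h2.1]
  have h4 := abs_le.1 (hab t)
  have h5 : Up p b ≤ p t - b t := up_le hb' t
  have h6 : η * N t ≤ η * (4 * (2 * C + 1)) := mul_le_mul_of_nonneg_left h3 hη
  linarith [h4.1, h4.2]

theorem abs_up_sub_le {p a b N : ℕ → ℝ} {C η : ℝ} (hη : 0 ≤ η)
    (ha' : ∀ s t, a s - a t ≤ p s + p t) (hb' : ∀ s t, b s - b t ≤ p s + p t)
    (hab : ∀ t, |a t - b t| ≤ η * N t) (ha : ∀ t, |a t| ≤ 3 / 4 * N t)
    (hb : ∀ t, |b t| ≤ 3 / 4 * N t)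
    (hN : ∀ t, N t ≤ p t + C) (hC : p 0 + N 0 ≤ C) :
    |Up p a - Up p b| ≤ η * (4 * (2 * C + 1)) := by
  have h1 := up_close hη ha' hb' hab ha hN hC
  have h2 := up_close hη hb' ha' (fun t => by rw [abs_sub_comm]; exact hab t) hb hN hC
  rw [abs_le]
  constructor <;> linarith

/-- Evaluations on a finite-dimensional space of functions continuous at a point. -/
theorem fd_close {θ₁ : Om} (S : Submodule ℝ LL) [FiniteDimensional ℝ S]
    (hS : ∀ y ∈ S, ContinuousAt (fun θ : Om => (y : LL) θ) θ₁) {η : ℝ} (hη : 0 < η) :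
    ∀ᶠ θ in 𝓝 θ₁, ∀ y ∈ S, |(y : LL) θ - y θ₁| ≤ η * ‖y‖ := by
  classical
  have : Module.Free ℝ S := Module.Free.of_divisionRing ℝ S
  obtain ⟨k, ⟨b⟩⟩ : ∃ k, Nonempty (Module.Basis (Fin k) ℝ S) := ⟨_, ⟨Module.finBasis ℝ S⟩⟩
  obtain ⟨C, hC0, hC⟩ : ∃ C : ℝ, 0 < C ∧ ∀ y : S, ∀ i, |b.repr y i| ≤ C * ‖y‖ := by
    set L : S →L[ℝ] (Fin k → ℝ) := LinearMap.toContinuousLinearMap
      b.equivFun.toLinearMap with hL
    refine ⟨‖L‖ + 1, by positivity, fun y i => ?_⟩
    have h1 : |b.repr y i| ≤ ‖L y‖ := by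
      have := norm_le_pi_norm (L y) i
      rw [Real.norm_eq_abs] at this
      exact this
    refine h1.trans ((L.le_opNorm y).trans ?_)
    nlinarith [norm_nonneg y, norm_nonneg L]
  set η' : ℝ := η / (C * (k + 1)) with hη'
  have hη'0 : 0 < η' := by positivity
  have h2 : ∀ i, ∀ᶠ θ in 𝓝 θ₁, |((b i : S) : LL) θ - ((b i : S) : LL) θ₁| < η' := by
    intro i
    have := hS _ (b i).2
    rw [Metric.continuousAt_iff'] at this
    refine (this η' hη'0).mono fun θ h => ?_
    rwa [Real.dist_eq] at h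
  have h3 := eventually_all.2 h2
  refine h3.mono fun θ hθ y hy => ?_
  have h4 : y = ∑ i, b.repr ⟨y, hy⟩ i • ((b i : S) : LL) := by
    have h6 := congrArg (Subtype.val) (b.sum_repr ⟨y, hy⟩)
    rw [Submodule.coe_sum] at h6
    exact h6.symm
  have h5 : ∀ θ' : Om, y θ' = ∑ i, b.repr ⟨y, hy⟩ i * ((b i : S) : LL) θ' := by
    intro θ'
    have h6 : ev θ' y = ev θ' (∑ i, b.repr ⟨y, hy⟩ i • ((b i : S) : LL)) := by rw [← h4]
    rw [map_sum] at h6
    simpa using h6
  rw [h5 θ, h5 θ₁, ← Finset.sum_sub_distrib]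
  have h7 : ∀ i, |b.repr ⟨y, hy⟩ i * ((b i : S) : LL) θ - b.repr ⟨y, hy⟩ i * ((b i : S) : LL) θ₁| ≤
      C * ‖y‖ * η' := by
    intro i
    rw [← mul_sub, abs_mul]
    exact mul_le_mul (hC ⟨y, hy⟩ i) (hθ i).le (abs_nonneg _) (by positivity)
  refine (Finset.abs_sum_le_sum_abs _ _).trans ((Finset.sum_le_sum fun i _ => h7 i).trans ?_)
  rw [Finset.sum_const, Finset.card_univ, Fintype.card_fin, nsmul_eq_mul, hη']
  have h8 : (k : ℝ) * (C * ‖y‖ * (η / (C * (k + 1)))) = (k / (k + 1)) * (η * ‖y‖) := by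
    field_simp
  rw [h8]
  have h9 : (k : ℝ) / (k + 1) ≤ 1 := by
    rw [div_le_one (by positivity)]
    linarith
  nlinarith [mul_nonneg hη.le (norm_nonneg y)]

/-- The functions continuous at a point form a closed subspace. -/
def contSub (θ₁ : Om) : Submodule ℝ LL where
  carrier := {x | ContinuousAt (fun θ : Om => x θ) θ₁}
  add_mem' {x y} hx hy := by
    have : (fun θ : Om => (x + y : LL) θ) = fun θ => x θ + y θ := by
      funext θ
      rw [lp.coeFn_add, Pi.add_apply]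
    simp only [Set.mem_ofPred_eq, this]
    exact hx.add hy
  zero_mem' := by
    have : (fun θ : Om => (0 : LL) θ) = fun _ => 0 := by
      funext θ
      rw [lp.coeFn_zero, Pi.zero_apply]
    simp only [Set.mem_ofPred_eq, this]
    exact continuousAt_const
  smul_mem' c x hx := by
    have : (fun θ : Om => (c • x : LL) θ) = fun θ => c * x θ := by
      funext θ
      rw [lp.coeFn_smul, Pi.smul_apply, smul_eq_mul]
    simp only [Set.mem_ofPred_eq, this]
    exact hx.const_smul c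

theorem isClosed_contSub (θ₁ : Om) : IsClosed (contSub θ₁ : Set LL) := by
  rw [← closure_subset_iff_isClosed]
  intro x hx
  change ContinuousAt (fun θ : Om => x θ) θ₁
  rw [Metric.continuousAt_iff']
  intro ε hε
  rw [Metric.mem_closure_iff] at hx
  obtain ⟨y, hy, hxy⟩ := hx (ε / 3) (by positivity)
  have hy' : ContinuousAt (fun θ : Om => y θ) θ₁ := hy
  rw [Metric.continuousAt_iff'] at hy'
  refine (hy' (ε / 3) (by positivity)).mono fun θ h => ?_
  rw [Real.dist_eq] at h ⊢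
  rw [dist_eq_norm] at hxy
  have h1 := (abs_ev_le θ (x - y)).trans_lt hxy
  have h2 := (abs_ev_le θ₁ (x - y)).trans_lt hxy
  rw [map_sub, ev_apply, ev_apply] at h1 h2
  have h1' := abs_lt.1 h1
  have h2' := abs_lt.1 h2
  have h3' := abs_lt.1 h
  rw [abs_lt]
  constructor <;> linarith [h1'.1, h1'.2, h2'.1, h2'.2, h3'.1, h3'.2]

/-- Interior points: all the generators are continuous there. -/
theorem gen_cont {Φ : LL →ₗ[ℝ] ℝ} (hΦ : ∀ x, |Φ x| ≤ 1 / 2 * ‖x‖) {θ₁ : Om}
    (hθ : ∀ c, gen c θ₁ = Φ (gen c)) (c : Code) : gen c ∈ contSub θ₁ := by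
  have hΦ' : ∀ x, |Φ x| ≤ ‖x‖ := fun x => (hΦ x).trans (by nlinarith [norm_nonneg x])
  induction c with
  | nil => rw [gen]; exact Submodule.zero_mem _
  | mk d ch ih =>
    by_cases h : Valid d (fun n => gen (ch n))
    swap
    · rw [gen_invalid h]
      exact Submodule.zero_mem _
    set g := fun n => gen (ch n) with hg
    set p := d.2 with hp
    have hYc : ∀ t, Y d g t ∈ contSub θ₁ := by
      intro t
      refine (isClosed_contSub θ₁).mem_of_tendsto (h.1 t) (Eventually.of_forall fun m => ?_)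
      unfold comb
      exact Submodule.sum_mem _ fun i _ => Submodule.smul_mem _ _ (ih i)
    have hY1 : ∀ t, (Y d g t) θ₁ = Φ (Y d g t) := by
      intro t
      exact agree_Y (Φ := ev θ₁) (abs_ev_le θ₁) hΦ' h (fun n => hθ _) t
    have hfd := h.2.2
    set S := Submodule.span ℝ (range (Y d g)) with hS
    have hSc : ∀ y ∈ S, ContinuousAt (fun θ : Om => (y : LL) θ) θ₁ := by
      have : S ≤ contSub θ₁ := by
        rw [hS, Submodule.span_le]
        rintro _ ⟨t, rfl⟩
        exact hYc t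
      exact fun y hy => this hy
    have hYS : ∀ t, Y d g t ∈ S := fun t => Submodule.subset_span (mem_range_self t)
    have hp0 : ∀ t, 0 ≤ p t := by
      intro t
      have := h.2.1 t t
      rw [sub_self, norm_zero] at this
      linarith
    set C : ℝ := p 0 + ‖Y d g 0‖ with hC
    have hN : ∀ t, ‖Y d g t‖ ≤ p t + C := by
      intro t
      have h1 := h.2.1 t 0
      have h2 : ‖Y d g t‖ ≤ ‖Y d g t - Y d g 0‖ + ‖Y d g 0‖ := by
        have := norm_add_le (Y d g t - Y d g 0) (Y d g 0)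
        rwa [sub_add_cancel] at this
      rw [hC]
      linarith
    have hb1 : ∀ t, |(Y d g t) θ₁| ≤ 3 / 4 * ‖Y d g t‖ := by
      intro t
      rw [hY1]
      exact (hΦ _).trans (by nlinarith [norm_nonneg (Y d g t)])
    -- continuity of the bounds
    have hUL : ∀ ε : ℝ, 0 < ε → ∀ᶠ θ in 𝓝 θ₁,
        |Up p (fun t => (Y d g t) θ) - Up p (fun t => (Y d g t) θ₁)| ≤ ε ∧
        |Lo p (fun t => (Y d g t) θ) - Lo p (fun t => (Y d g t) θ₁)| ≤ ε := by
      intro ε hε
      have hC0 : 0 ≤ C := add_nonneg (hp0 0) (norm_nonneg _)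
      set η := min (1 / 4) (ε / (4 * (2 * C + 1))) with hη
      have hη0 : 0 < η := lt_min (by norm_num) (by positivity)
      have hη1 : η ≤ 1 / 4 := min_le_left _ _
      have hη2 : η * (4 * (2 * C + 1)) ≤ ε := by
        have : η ≤ ε / (4 * (2 * C + 1)) := min_le_right _ _
        rwa [le_div_iff₀ (by positivity)] at this
      refine (fd_close S hSc hη0).mono fun θ hθ' => ?_
      have hab : ∀ t, |(Y d g t) θ - (Y d g t) θ₁| ≤ η * ‖Y d g t‖ := fun t => hθ' _ (hYS t)
      have ha1 : ∀ t, |(Y d g t) θ| ≤ 3 / 4 * ‖Y d g t‖ := by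
        intro t
        have h1 := abs_le.1 (hab t)
        have h2 : |(Y d g t) θ₁| ≤ 1 / 2 * ‖Y d g t‖ := by
          rw [hY1]
          exact hΦ _
        have h3 := abs_le.1 h2
        have h4 : η * ‖Y d g t‖ ≤ 1 / 4 * ‖Y d g t‖ :=
          mul_le_mul_of_nonneg_right hη1 (norm_nonneg _)
        rw [abs_le]
        constructor <;> linarith [h1.1, h1.2, h3.1, h3.2]
      have hv1 := valid_bd h θ
      have hv2 := valid_bd h θ₁
      constructor
      · exact (abs_up_sub_le hη0.le hv1 hv2 hab ha1 hb1 hN le_rfl).trans hη2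
      · rw [lo_eq, lo_eq]
        have h5 : |Up p (fun t => -(Y d g t) θ) - Up p (fun t => -(Y d g t) θ₁)| ≤ ε := by
          refine (abs_up_sub_le (N := fun t => ‖Y d g t‖) hη0.le ?_ ?_ ?_ ?_ ?_ hN le_rfl).trans hη2
          · intro s t
            have := hv1 t s
            linarith
          · intro s t
            have := hv2 t s
            linarith
          · intro t
            have : -(Y d g t) θ - -(Y d g t) θ₁ = -((Y d g t) θ - (Y d g t) θ₁) := by ring
            rw [this, abs_neg]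
            exact hab t
          · intro t
            rw [abs_neg]
            exact ha1 t
          · intro t
            rw [abs_neg]
            exact hb1 t
        have h6 : -Up p (fun t => -(Y d g t) θ) - -Up p (fun t => -(Y d g t) θ₁) =
            -(Up p (fun t => -(Y d g t) θ) - Up p (fun t => -(Y d g t) θ₁)) := by ring
        rw [h6, abs_neg]
        exact h5
    have hU : ContinuousAt (fun θ : Om => Up p (fun t => (Y d g t) θ)) θ₁ := by
      rw [Metric.continuousAt_iff']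
      intro ε hε
      refine (hUL (ε / 2) (by positivity)).mono fun θ h1 => ?_
      rw [Real.dist_eq]
      linarith [h1.1]
    have hL : ContinuousAt (fun θ : Om => Lo p (fun t => (Y d g t) θ)) θ₁ := by
      rw [Metric.continuousAt_iff']
      intro ε hε
      refine (hUL (ε / 2) (by positivity)).mono fun θ h1 => ?_
      rw [Real.dist_eq]
      linarith [h1.2]
    have hco : ContinuousAt (fun θ : Om => ((θ (.mk d ch) : Icc (0 : ℝ) 1) : ℝ)) θ₁ :=
      (continuous_subtype_val.comp (continuous_apply _)).continuousAt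
    change ContinuousAt (fun θ : Om => gen (.mk d ch) θ) θ₁
    have : (fun θ : Om => gen (.mk d ch) θ) = fun θ =>
        (1 - ((θ (.mk d ch) : Icc (0 : ℝ) 1) : ℝ)) * Lo p (fun t => (Y d g t) θ) +
          ((θ (.mk d ch) : Icc (0 : ℝ) 1) : ℝ) * Up p (fun t => (Y d g t) θ) := by
      funext θ
      rw [gen_valid h]
      rfl
    rw [this]
    exact ((continuousAt_const.sub hco).mul hL).add (hco.mul hU)

theorem mem_contSub {Φ : LL →ₗ[ℝ] ℝ} (hΦ : ∀ x, |Φ x| ≤ 1 / 2 * ‖x‖) {θ₁ : Om}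
    (hθ : ∀ c, gen c θ₁ = Φ (gen c)) {x : LL} (hx : x ∈ XX) : x ∈ contSub θ₁ := by
  refine Submodule.topologicalClosure_minimal _ ?_ (isClosed_contSub θ₁) hx
  rw [Submodule.span_le]
  rintro _ ⟨c, rfl⟩
  exact gen_cont hΦ hθ c

/-- Every nonzero element of the space is nonzero and continuous at some point. -/
theorem exists_cont {x : LL} (hx : x ∈ XX) (h0 : x ≠ 0) :
    ∃ θ₁ : Om, x θ₁ ≠ 0 ∧ ContinuousAt (fun θ : Om => x θ) θ₁ := by
  obtain ⟨ψ, hψ1, hψ2⟩ := exists_dual_vector'' ℝ x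
  set Φ : LL →ₗ[ℝ] ℝ := (1 / 2 : ℝ) • (ψ : LL →ₗ[ℝ] ℝ) with hΦd
  have hΦ : ∀ y, |Φ y| ≤ 1 / 2 * ‖y‖ := by
    intro y
    rw [hΦd, LinearMap.smul_apply, smul_eq_mul, abs_mul, abs_of_pos (by norm_num : (0 : ℝ) < 1 / 2)]
    refine mul_le_mul_of_nonneg_left ?_ (by norm_num)
    have := ψ.le_opNorm y
    rw [Real.norm_eq_abs] at this
    exact this.trans (by nlinarith [norm_nonneg y])
  have hΦ' : ∀ y, |Φ y| ≤ ‖y‖ := fun y => (hΦ y).trans (by nlinarith [norm_nonneg y])
  obtain ⟨θ₁, hθ⟩ := exists_point' hΦ'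
  refine ⟨θ₁, ?_, mem_contSub hΦ hθ hx⟩
  have h1 : x θ₁ = Φ x := by
    have h2 : ∀ y ∈ XX, ev θ₁ y = Φ y := by
      intro y hy
      have h3 : ∀ z ∈ Submodule.span ℝ (range gen), ev θ₁ z = Φ z := by
        intro z hz
        refine LinearMap.eqOn_span (f := ev θ₁) (g := Φ) (s := range gen) ?_ hz
        rintro _ ⟨c, rfl⟩
        exact hθ c
      obtain ⟨u, hu1, hu2⟩ := mem_closure_iff_seq_limit.1 (show y ∈ closure
        ((Submodule.span ℝ (range gen) : Submodule ℝ LL) : Set LL) from hy)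
      exact tendsto_nhds_unique (tendsto_of_abs_le (abs_ev_le θ₁) hu2)
        ((tendsto_of_abs_le hΦ' hu2).congr fun m => (h3 _ (hu1 m)).symm)
    exact h2 x hx
  rw [h1, hΦd, LinearMap.smul_apply]
  have h4 : (ψ : LL →ₗ[ℝ] ℝ) x = ‖x‖ := hψ2
  rw [h4, smul_eq_mul]
  have := norm_pos_iff.2 h0
  positivity

end Pool.Agent.R278.Rot
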