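import Pool.Agent.R278.Rot.Cont

/-!
# Countably many evaluations separate the points; the rotund renorming
-/

open Set Filter Topology Cardinal
open scoped ENNReal

namespace Pool.Agent.R278.Rot

/-- Branching types. -/
def Br : Option Dat → Type
  | none => Empty
  | some _ => ℕ

/-- Codes as a W-type. -/
def toW : Code → WType Br
  | .nil => WType.mk none (fun e => Empty.elim e)
  | .mk d ch => WType.mk (some d) (fun n => toW (ch n))

theorem toW_injective : Function.Injective toW := by
  intro a
  induction a with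
  | nil =>
    intro b h
    cases b with
    | nil => rfl
    | mk d ch =>
      rw [toW, toW] at h
      injection h with h1 h2
      cases h1
  | mk d ch ih =>
    intro b h
    cases b with
    | nil =>
      rw [toW, toW] at h
      injection h with h1 h2
      cases h1
    | mk d' ch' =>
      rw [toW, toW] at h
      injection h with h1 h2
      injection h1 with h3
      subst h3
      have : ch = ch' := by
        funext n
        exact ih n (congrFun h2 n)
      rw [this]

theorem mk_dat_le : #(Option Dat) ≤ 𝔠 := by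
  have h1 : #(ℕ →₀ ℝ) ≤ 𝔠 := by
    have : #(ℕ →₀ ℝ) ≤ #(ℕ → ℝ) := mk_le_of_injective (f := fun a => (a : ℕ → ℝ))
      DFunLike.coe_injective
    refine this.trans ?_
    simp [mk_real]
  have h2 : #(ℕ → ℕ → (ℕ →₀ ℝ)) ≤ 𝔠 := by
    rw [← power_def, ← power_def, ← power_mul]
    refine (power_le_power_right h1).trans ?_
    simp
  have h3 : #(ℕ → ℝ) ≤ 𝔠 := by simp [mk_real]
  rw [mk_option, mk_prod, lift_id, lift_id]
  have h4 : #(ℕ → ℕ → (ℕ →₀ ℝ)) * #(ℕ → ℝ) ≤ 𝔠 := by
    refine (mul_le_mul' h2 h3).trans ?_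
    simp
  refine (add_le_add h4 (one_le_aleph0.trans aleph0_le_continuum)).trans ?_
  simp

theorem mk_code_le : #Code ≤ 𝔠 := by
  refine (mk_le_of_injective toW_injective).trans ?_
  refine WType.cardinalMk_le_of_le ?_
  have h1 : ∀ a : Option Dat, 𝔠 ^ #(Br a) ≤ 𝔠 := by
    intro a
    cases a with
    | none =>
      have : #(Br none) = 0 := by
        change #Empty = 0
        simp
      rw [this, power_zero]
      exact one_le_aleph0.trans aleph0_le_continuum
    | some d =>
      have : #(Br (some d)) = ℵ₀ := by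
        change #ℕ = ℵ₀
        simp
      rw [this]
      simp
  refine (sum_le_sum _ _ h1).trans ?_
  rw [sum_const']
  refine (mul_le_mul' mk_dat_le le_rfl).trans ?_
  simp

theorem exists_inj : ∃ ι : Code → (ℕ → Bool), Function.Injective ι := by
  have h : #Code ≤ #(ℕ → Bool) := by
    refine mk_code_le.trans ?_
    simp
  obtain ⟨e⟩ := h
  exact ⟨e, e.injective⟩

/-- Separation of finitely many points by finitely many coordinates. -/
theorem exists_n {ι : Code → (ℕ → Bool)} (hι : Function.Injective ι) (I : Finset Code) :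
    ∃ n : ℕ, ∀ a ∈ I, ∀ b ∈ I, (∀ i < n, ι a i = ι b i) → a = b := by
  classical
  have h1 : ∀ a b : Code, ∃ n : ℕ, (∀ i < n, ι a i = ι b i) → a = b := by
    intro a b
    by_cases h : a = b
    · exact ⟨0, fun _ => h⟩
    · have h2 : ι a ≠ ι b := fun h' => h (hι h')
      obtain ⟨i, hi⟩ := Function.ne_iff.1 h2
      exact ⟨i + 1, fun h3 => absurd (h3 i (Nat.lt_succ_self i)) hi⟩
  choose N hN using h1
  refine ⟨I.sup fun a => I.sup fun b => N a b, fun a ha b hb h => hN a b fun i hi => h i ?_⟩
  refine hi.trans_le ?_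
  refine le_trans ?_ (Finset.le_sup (f := fun a => I.sup fun b => N a b) ha)
  exact Finset.le_sup (f := fun b => N a b) hb

theorem exists_dense : ∃ τ : ℕ → Om, DenseRange τ := by
  classical
  obtain ⟨ι, hι⟩ := exists_inj
  set u : ℕ → Icc (0 : ℝ) 1 := TopologicalSpace.denseSeq _ with hu
  have hud : DenseRange u := TopologicalSpace.denseRange_denseSeq _
  set P : (Σ n : ℕ, ((Fin n → Bool) → ℕ)) → Om := fun s c => u (s.2 fun i => ι c i) with hP
  have hd : DenseRange P := by
    intro θ
    rw [mem_closure_iff]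
    intro U hU hθ
    obtain ⟨I, w, hw, hIU⟩ := isOpen_pi_iff.1 hU θ hθ
    obtain ⟨n, hn⟩ := exists_n hι I
    have h1 : ∀ a : Code, ∃ k : ℕ, a ∈ I → u k ∈ w a := by
      intro a
      by_cases ha : a ∈ I
      · obtain ⟨k, hk⟩ := hud.exists_mem_open (hw a ha).1 ⟨_, (hw a ha).2⟩
        exact ⟨k, fun _ => hk⟩
      · exact ⟨0, fun h => absurd h ha⟩
    choose K hK using h1
    set q : (Fin n → Bool) → ℕ := fun s =>
      if h : ∃ a ∈ I, (fun i : Fin n => ι a i) = s then K h.choose else 0 with hq
    refine ⟨P ⟨n, q⟩, hIU ?_, mem_range_self _⟩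
    intro a ha
    have h2 : ∃ b ∈ I, (fun i : Fin n => ι b i) = (fun i : Fin n => ι a i) := ⟨a, ha, rfl⟩
    have h3 : P ⟨n, q⟩ a = u (K h2.choose) := by
      change u (q fun i => ι a i) = _
      rw [hq]
      simp only
      rw [dif_pos h2]
    have h4 : h2.choose = a := by
      refine hn _ h2.choose_spec.1 a ha fun i hi => ?_
      exact congrFun h2.choose_spec.2 ⟨i, hi⟩
    rw [h3, h4]
    exact hK a ha
  obtain ⟨f, hf⟩ := exists_surjective_nat (Σ n : ℕ, ((Fin n → Bool) → ℕ))
  refine ⟨P ∘ f, ?_⟩
  rw [DenseRange, hf.range_comp]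
  exact hd

end Pool.Agent.R278.Rot
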