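import Mathlib

/-!
# Freely generated functions on a cube

The generators of a strong Gurarii space are defined by recursion on codes (well-founded trees with
countable branching) as bounded functions on the cube `[0,1]^Code`.
-/

open Set Filter Topology
open scoped ENNReal

namespace Pool.Agent.R278.Rot

/-- The data of a node: coefficients of the approximations of the vectors `y t`, and the prescribed
distances `p t`. -/
abbrev Dat : Type := (ℕ → ℕ → (ℕ →₀ ℝ)) × (ℕ → ℝ)

/-- Codes: well-founded trees with countable branching whose nodes carry data. -/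
inductive Code : Type
  | nil : Code
  | mk (d : Dat) (ch : ℕ → Code) : Code

/-- The cube. -/
abbrev Om : Type := Code → Icc (0 : ℝ) 1

/-- Bounded functions on the cube. -/
abbrev LL : Type := lp (fun _ : Om => ℝ) ∞

/-- Finite linear combinations of a sequence. -/
noncomputable def comb {V : Type*} [AddCommGroup V] [Module ℝ V] (g : ℕ → V) (a : ℕ →₀ ℝ) : V :=
  a.sum fun n r => r • g n

theorem map_comb {V W : Type*} [AddCommGroup V] [Module ℝ V] [AddCommGroup W] [Module ℝ W]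
    (T : V →ₗ[ℝ] W) (g : ℕ → V) (a : ℕ →₀ ℝ) : T (comb g a) = comb (fun n => T (g n)) a := by
  unfold comb
  rw [map_finsuppSum]
  simp

/-- The limit vectors. -/
noncomputable def Y (d : Dat) (g : ℕ → LL) (t : ℕ) : LL :=
  limUnder atTop (fun m => comb g (d.1 t m))

/-- Validity of data. -/
def Valid (d : Dat) (g : ℕ → LL) : Prop :=
  (∀ t, Tendsto (fun m => comb g (d.1 t m)) atTop (𝓝 (Y d g t))) ∧
  (∀ s t, ‖Y d g s - Y d g t‖ ≤ d.2 s + d.2 t) ∧
  FiniteDimensional ℝ (Submodule.span ℝ (range (Y d g)))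

/-- The upper bound. -/
noncomputable def Up (p a : ℕ → ℝ) : ℝ := ⨅ t, (p t - a t)

/-- The lower bound. -/
noncomputable def Lo (p a : ℕ → ℝ) : ℝ := ⨆ t, (-p t - a t)

theorem bddBelow_up {p a : ℕ → ℝ} (h : ∀ s t, a s - a t ≤ p s + p t) :
    BddBelow (range fun t => p t - a t) := by
  refine ⟨-p 0 - a 0, ?_⟩
  rintro _ ⟨t, rfl⟩
  have := h t 0
  simp only
  linarith

theorem bddAbove_lo {p a : ℕ → ℝ} (h : ∀ s t, a s - a t ≤ p s + p t) :
    BddAbove (range fun t => -p t - a t) := by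
  refine ⟨p 0 - a 0, ?_⟩
  rintro _ ⟨t, rfl⟩
  have := h 0 t
  simp only
  linarith

theorem lo_le_up {p a : ℕ → ℝ} (h : ∀ s t, a s - a t ≤ p s + p t) : Lo p a ≤ Up p a := by
  refine ciSup_le fun t => le_ciInf fun s => ?_
  have := h s t
  linarith

theorem up_le {p a : ℕ → ℝ} (h : ∀ s t, a s - a t ≤ p s + p t) (t : ℕ) : Up p a ≤ p t - a t :=
  ciInf_le (bddBelow_up h) t

theorem le_lo {p a : ℕ → ℝ} (h : ∀ s t, a s - a t ≤ p s + p t) (t : ℕ) : -p t - a t ≤ Lo p a :=
  le_ciSup (bddAbove_lo h) t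

theorem lo_eq {p a : ℕ → ℝ} : Lo p a = -Up p (fun t => -a t) := by
  unfold Lo Up
  rw [iInf, Real.sInf_def, neg_neg, iSup]
  congr 1
  ext x
  simp only [mem_range, Set.mem_neg]
  constructor
  · rintro ⟨t, ht⟩
    exact ⟨t, by linarith⟩
  · rintro ⟨t, ht⟩
    exact ⟨t, by linarith⟩

/-- The value with position `s` in the interval. -/
noncomputable def val (p a : ℕ → ℝ) (s : ℝ) : ℝ := (1 - s) * Lo p a + s * Up p a

theorem lo_le_val {p a : ℕ → ℝ} (h : ∀ s t, a s - a t ≤ p s + p t) {s : ℝ} (hs : s ∈ Icc (0 : ℝ) 1) :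
    Lo p a ≤ val p a s := by
  have h1 := lo_le_up h
  unfold val
  nlinarith [hs.1, hs.2]

theorem val_le_up {p a : ℕ → ℝ} (h : ∀ s t, a s - a t ≤ p s + p t) {s : ℝ} (hs : s ∈ Icc (0 : ℝ) 1) :
    val p a s ≤ Up p a := by
  have h1 := lo_le_up h
  unfold val
  nlinarith [hs.1, hs.2]

theorem valid_bd {d : Dat} {g : ℕ → LL} (h : Valid d g) (θ : Om) (s t : ℕ) :
    (Y d g s) θ - (Y d g t) θ ≤ d.2 s + d.2 t := by
  have h1 := h.2.1 s t
  have h2 := lp.norm_apply_le_norm (by simp) (Y d g s - Y d g t) θ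
  rw [lp.coeFn_sub, Pi.sub_apply, Real.norm_eq_abs] at h2
  exact (le_abs_self _).trans (h2.trans h1)

theorem memlp_val {d : Dat} {g : ℕ → LL} (h : Valid d g) (c : Code) :
    Memℓp (fun θ : Om => val d.2 (fun t => (Y d g t) θ) (θ c)) ∞ := by
  refine memℓp_infty ⟨d.2 0 + ‖Y d g 0‖, ?_⟩
  rintro _ ⟨θ, rfl⟩
  have h2 := lp.norm_apply_le_norm (by simp) (Y d g 0) θ
  rw [Real.norm_eq_abs] at h2
  have h3 := abs_le.1 h2
  have hb := valid_bd h θ
  have h4 := (val_le_up hb (θ c).2).trans (up_le hb 0)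
  have h5 := (le_lo hb 0).trans (lo_le_val hb (θ c).2)
  simp only [Real.norm_eq_abs, abs_le]
  constructor <;> linarith [h3.1, h3.2]

open Classical in
/-- One step of the recursion. -/
noncomputable def stepv (d : Dat) (g : ℕ → LL) (c : Code) : LL :=
  if h : Valid d g then ⟨fun θ : Om => val d.2 (fun t => (Y d g t) θ) (θ c), memlp_val h c⟩ else 0

/-- The generators. -/
noncomputable def gen : Code → LL
  | .nil => 0
  | .mk d ch => stepv d (fun n => gen (ch n)) (.mk d ch)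

theorem gen_valid {d : Dat} {ch : ℕ → Code} (h : Valid d (fun n => gen (ch n))) (θ : Om) :
    gen (.mk d ch) θ = val d.2 (fun t => (Y d (fun n => gen (ch n)) t) θ) (θ (.mk d ch)) := by
  rw [gen, stepv, dif_pos h]

theorem gen_invalid {d : Dat} {ch : ℕ → Code} (h : ¬ Valid d (fun n => gen (ch n))) :
    gen (.mk d ch) = 0 := by
  rw [gen, stepv, dif_neg h]

/-- The prescribed norms bound the norms. -/
theorem norm_add_gen_le {d : Dat} {ch : ℕ → Code} (h : Valid d (fun n => gen (ch n))) (t : ℕ) :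
    ‖Y d (fun n => gen (ch n)) t + gen (.mk d ch)‖ ≤ d.2 t := by
  set g := fun n => gen (ch n) with hg
  have hpt : 0 ≤ d.2 t := by
    have := h.2.1 t t
    rw [sub_self, norm_zero] at this
    linarith
  refine lp.norm_le_of_forall_le hpt fun θ => ?_
  have hb := valid_bd h θ
  have h4 := (val_le_up hb (θ (.mk d ch)).2).trans (up_le hb t)
  have h5 := (le_lo hb t).trans (lo_le_val hb (θ (.mk d ch)).2)
  rw [lp.coeFn_add, Pi.add_apply, gen_valid h, Real.norm_eq_abs, abs_le]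
  constructor <;> linarith

/-- Evaluation functionals. -/
noncomputable def ev (θ : Om) : LL →ₗ[ℝ] ℝ where
  toFun x := x θ
  map_add' x y := by rw [lp.coeFn_add, Pi.add_apply]
  map_smul' c x := by rw [lp.coeFn_smul, Pi.smul_apply]; rfl

@[simp] theorem ev_apply (θ : Om) (x : LL) : ev θ x = x θ := rfl

theorem abs_ev_le (θ : Om) (x : LL) : |ev θ x| ≤ ‖x‖ := by
  have := lp.norm_apply_le_norm (by simp) x θ
  rwa [Real.norm_eq_abs] at this

/-- Linear functionals of norm at most one are continuous. -/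
theorem tendsto_of_abs_le {Φ : LL →ₗ[ℝ] ℝ} (hΦ : ∀ x, |Φ x| ≤ ‖x‖) {u : ℕ → LL} {y : LL}
    (h : Tendsto u atTop (𝓝 y)) : Tendsto (fun m => Φ (u m)) atTop (𝓝 (Φ y)) := by
  rw [tendsto_iff_norm_sub_tendsto_zero] at h ⊢
  refine squeeze_zero (fun _ => norm_nonneg _) (fun m => ?_) h
  rw [← map_sub, Real.norm_eq_abs]
  exact hΦ _

/-- Two functionals of norm at most one agreeing on the children agree on the limit vectors. -/
theorem agree_Y {Φ Ψ : LL →ₗ[ℝ] ℝ} (hΦ : ∀ x, |Φ x| ≤ ‖x‖) (hΨ : ∀ x, |Ψ x| ≤ ‖x‖) {d : Dat}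
    {g : ℕ → LL} (h : Valid d g) (hg : ∀ n, Φ (g n) = Ψ (g n)) (t : ℕ) :
    Φ (Y d g t) = Ψ (Y d g t) := by
  have h1 := tendsto_of_abs_le hΦ (h.1 t)
  have h2 := tendsto_of_abs_le hΨ (h.1 t)
  refine tendsto_nhds_unique h1 (h2.congr fun m => ?_)
  rw [map_comb, map_comb]
  simp only [hg]

/-- The position of the value of a functional at a generator. -/
noncomputable def pos (Φ : LL →ₗ[ℝ] ℝ) : Code → ℝ
  | .nil => 0
  | .mk d ch =>
    (Φ (gen (.mk d ch)) - Lo d.2 (fun t => Φ (Y d (fun n => gen (ch n)) t))) /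
      (Up d.2 (fun t => Φ (Y d (fun n => gen (ch n)) t)) -
        Lo d.2 (fun t => Φ (Y d (fun n => gen (ch n)) t)))

/-- The point determined by a functional. -/
noncomputable def pt (Φ : LL →ₗ[ℝ] ℝ) : Om := fun c => projIcc 0 1 zero_le_one (pos Φ c)

theorem val_pos {l u v : ℝ} (h1 : l ≤ v) (h2 : v ≤ u) :
    (1 - ((projIcc (0 : ℝ) 1 zero_le_one ((v - l) / (u - l)) : Icc (0 : ℝ) 1) : ℝ)) * l +
      (projIcc (0 : ℝ) 1 zero_le_one ((v - l) / (u - l)) : Icc (0 : ℝ) 1) * u = v := by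
  rcases eq_or_lt_of_le (h1.trans h2) with h | h
  · subst h
    have : v = l := le_antisymm h2 h1
    subst this
    ring
  · have h3 : 0 < u - l := by linarith
    have h4 : (v - l) / (u - l) ∈ Icc (0 : ℝ) 1 :=
      ⟨div_nonneg (by linarith) h3.le, (div_le_one h3).2 (by linarith)⟩
    rw [projIcc_of_mem _ h4]
    simp only
    field_simp
    ring

/-- The key extension property: a point whose coordinates are the positions of `Φ` on a set of
codes closed under children evaluates as `Φ` there. -/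
theorem ev_eq {Φ : LL →ₗ[ℝ] ℝ} (hΦ : ∀ x, |Φ x| ≤ ‖x‖) {D : Set Code}
    (hD : ∀ d ch, Code.mk d ch ∈ D → ∀ n, ch n ∈ D) {θ : Om} (hθ : ∀ c ∈ D, θ c = pt Φ c) :
    ∀ c ∈ D, gen c θ = Φ (gen c) := by
  intro c
  induction c with
  | nil => intro _; rw [gen, map_zero, lp.coeFn_zero, Pi.zero_apply]
  | mk d ch ih =>
    intro hc
    by_cases h : Valid d (fun n => gen (ch n))
    · have hY : ∀ t, (Y d (fun n => gen (ch n)) t) θ = Φ (Y d (fun n => gen (ch n)) t) := by
        intro t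
        exact agree_Y (Φ := ev θ) (abs_ev_le θ) hΦ h (fun n => ih n (hD d ch hc n)) t
      rw [gen_valid h]
      simp only [hY]
      rw [hθ _ hc]
      unfold val pt pos
      refine val_pos ?_ ?_
      · refine ciSup_le fun t => ?_
        have h1 := hΦ (Y d (fun n => gen (ch n)) t + gen (.mk d ch))
        have h2 := norm_add_gen_le h t
        rw [map_add] at h1
        have h3 := abs_le.1 (h1.trans h2)
        linarith [h3.1]
      · refine le_ciInf fun t => ?_
        have h1 := hΦ (Y d (fun n => gen (ch n)) t + gen (.mk d ch))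
        have h2 := norm_add_gen_le h t
        rw [map_add] at h1
        have h3 := abs_le.1 (h1.trans h2)
        linarith [h3.2]
    · rw [gen_invalid h, map_zero, lp.coeFn_zero, Pi.zero_apply]

/-- The rank of a code. -/
noncomputable def rk : Code → Ordinal.{0}
  | .nil => 0
  | .mk _ ch => ⨆ n, Order.succ (rk (ch n))

theorem rk_lt (d : Dat) (ch : ℕ → Code) (n : ℕ) : rk (ch n) < rk (.mk d ch) := by
  rw [rk]
  exact (Order.lt_succ _).trans_le (Ordinal.le_iSup (fun n => Order.succ (rk (ch n))) n)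

open Classical in
/-- A point evaluating as `Φ` below `c₀` and whose coordinate at `c₀` is `1`. -/
theorem exists_point {Φ : LL →ₗ[ℝ] ℝ} (hΦ : ∀ x, |Φ x| ≤ ‖x‖) (c₀ : Code) :
    ∃ θ : Om, (θ c₀ : ℝ) = 1 ∧ ∀ c, rk c < rk c₀ → gen c θ = Φ (gen c) := by
  refine ⟨Function.update (pt Φ) c₀ ⟨1, by simp⟩, by simp, ?_⟩
  refine ev_eq hΦ (D := {c | rk c < rk c₀}) (fun d ch h n => (rk_lt d ch n).trans h) ?_
  intro c hc
  rw [Function.update_of_ne]
  rintro rfl
  simp at hc

theorem exists_point' {Φ : LL →ₗ[ℝ] ℝ} (hΦ : ∀ x, |Φ x| ≤ ‖x‖) :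
    ∃ θ : Om, ∀ c, gen c θ = Φ (gen c) :=
  ⟨pt Φ, fun c => ev_eq hΦ (D := univ) (fun _ _ _ _ => mem_univ _) (fun _ _ => rfl) c (mem_univ _)⟩

end Pool.Agent.R278.Rot
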