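import Pool.Agent.R278.Rot.Dense

/-!
# The rotund renorming
-/

open Set Filter Topology
open scoped ENNReal

namespace Pool.Agent.R278.Rot

/-- The Hilbert space. -/
abbrev H2 : Type := lp (fun _ : ℕ => ℝ) 2

theorem memlp_two (τ : ℕ → Om) (x : LL) : Memℓp (fun k : ℕ => (1 / 2 : ℝ) ^ k * x (τ k)) 2 := by
  refine memℓp_gen ?_
  have h1 : Summable fun k : ℕ => (‖x‖ ^ 2) * ((1 / 4 : ℝ) ^ k) :=
    (summable_geometric_of_lt_one (by norm_num) (by norm_num)).mul_left _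
  refine Summable.of_nonneg_of_le (fun k => by positivity) (fun k => ?_) h1
  have h2 : ((2 : ℝ≥0∞).toReal) = ((2 : ℕ) : ℝ) := by simp
  rw [h2, Real.rpow_natCast, Real.norm_eq_abs, abs_mul, mul_pow]
  have h3 := abs_ev_le (τ k) x
  rw [ev_apply] at h3
  have h4 : |(1 / 2 : ℝ) ^ k| ^ 2 = (1 / 4 : ℝ) ^ k := by
    rw [abs_of_pos (by positivity), ← pow_mul, mul_comm, pow_mul]
    norm_num
  rw [h4, mul_comm]
  refine mul_le_mul_of_nonneg_right ?_ (by positivity)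
  exact pow_le_pow_left₀ (abs_nonneg _) h3 2

/-- The operator into the Hilbert space. -/
noncomputable def TT (τ : ℕ → Om) : LL →ₗ[ℝ] H2 where
  toFun x := ⟨fun k : ℕ => (1 / 2 : ℝ) ^ k * x (τ k), memlp_two τ x⟩
  map_add' x y := by
    ext k
    change (1 / 2 : ℝ) ^ k * (x + y : LL) (τ k) = (1 / 2 : ℝ) ^ k * x (τ k) +
      (1 / 2 : ℝ) ^ k * y (τ k)
    rw [lp.coeFn_add, Pi.add_apply]
    ring
  map_smul' c x := by
    ext k
    change (1 / 2 : ℝ) ^ k * (c • x : LL) (τ k) = c • ((1 / 2 : ℝ) ^ k * x (τ k))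
    rw [lp.coeFn_smul, Pi.smul_apply, smul_eq_mul, smul_eq_mul]
    ring

theorem norm_TT_le (τ : ℕ → Om) (x : LL) : ‖TT τ x‖ ≤ 2 * ‖x‖ := by
  have h0 : ‖TT τ x‖ ^ 2 ≤ (2 * ‖x‖) ^ 2 := by
    have h1 : ‖TT τ x‖ ^ (2 : ℝ≥0∞).toReal = ∑' k, ‖TT τ x k‖ ^ (2 : ℝ≥0∞).toReal :=
      lp.norm_rpow_eq_tsum (by simp) _
    have h2 : ((2 : ℝ≥0∞).toReal) = ((2 : ℕ) : ℝ) := by simp
    rw [h2, Real.rpow_natCast] at h1
    rw [h1]
    have h3 : ∀ k, ‖TT τ x k‖ ^ ((2 : ℕ) : ℝ) ≤ (‖x‖ ^ 2) * ((1 / 4 : ℝ) ^ k) := by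
      intro k
      rw [Real.rpow_natCast]
      change ‖(1 / 2 : ℝ) ^ k * x (τ k)‖ ^ 2 ≤ _
      rw [Real.norm_eq_abs, abs_mul, mul_pow]
      have h3 := abs_ev_le (τ k) x
      rw [ev_apply] at h3
      have h4 : |(1 / 2 : ℝ) ^ k| ^ 2 = (1 / 4 : ℝ) ^ k := by
        rw [abs_of_pos (by positivity), ← pow_mul, mul_comm, pow_mul]
        norm_num
      rw [h4, mul_comm]
      refine mul_le_mul_of_nonneg_right ?_ (by positivity)
      exact pow_le_pow_left₀ (abs_nonneg _) h3 2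
    have h5 : Summable fun k : ℕ => (‖x‖ ^ 2) * ((1 / 4 : ℝ) ^ k) :=
      (summable_geometric_of_lt_one (by norm_num) (by norm_num)).mul_left _
    have h6 : Summable fun k : ℕ => ‖TT τ x k‖ ^ ((2 : ℕ) : ℝ) :=
      Summable.of_nonneg_of_le (fun k => by positivity) h3 h5
    refine (h6.tsum_le_tsum h3 h5).trans ?_
    rw [tsum_mul_left, tsum_geometric_of_lt_one (by norm_num) (by norm_num)]
    nlinarith [sq_nonneg ‖x‖]
  exact (pow_le_pow_iff_left₀ (norm_nonneg _) (by positivity) two_ne_zero).1 h0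

theorem eq_zero_of_TT {τ : ℕ → Om} (hτ : DenseRange τ) {x : LL} (hx : x ∈ XX)
    (h : TT τ x = 0) : x = 0 := by
  by_contra h0
  obtain ⟨θ₁, h1, h2⟩ := exists_cont hx h0
  have h3 : ∀ᶠ θ in 𝓝 θ₁, x θ ≠ 0 := h2.eventually_ne h1
  obtain ⟨U, hU, hUo, hUθ⟩ := eventually_nhds_iff.1 h3
  obtain ⟨k, hk⟩ := hτ.exists_mem_open hUo ⟨θ₁, hUθ⟩
  have h4 : (TT τ x) k = 0 := by
    rw [h, lp.coeFn_zero, Pi.zero_apply]
  change (1 / 2 : ℝ) ^ k * x (τ k) = 0 at h4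
  rcases mul_eq_zero.1 h4 with h5 | h5
  · have : (0 : ℝ) < (1 / 2 : ℝ) ^ k := by positivity
    linarith
  · exact hU _ hk h5

/-- The rotund norm. -/
noncomputable def qq (τ : ℕ → Om) : Seminorm ℝ XX :=
  (normSeminorm ℝ (WithLp 2 (XX × H2))).comp
    ((WithLp.linearEquiv 2 ℝ (XX × H2)).symm.toLinearMap.comp
      (LinearMap.prod LinearMap.id ((TT τ).comp XX.subtype)))

theorem qq_sq (τ : ℕ → Om) (x : XX) : qq τ x ^ 2 = ‖x‖ ^ 2 + ‖TT τ x‖ ^ 2 := by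
  have : qq τ x = ‖(WithLp.toLp 2 (x, TT τ (x : LL)) : WithLp 2 (XX × H2))‖ := rfl
  rw [this, WithLp.prod_norm_sq_eq_of_L2]
  rfl

theorem exists_rotund : ∃ q : Seminorm ℝ XX,
    (∃ a b : ℝ, 0 < a ∧ ∀ x, a * ‖x‖ ≤ q x ∧ q x ≤ b * ‖x‖) ∧
    ∀ x y, q (x + y) = 2 * q x → q (x + y) = 2 * q y → x = y := by
  obtain ⟨τ, hτ⟩ := exists_dense
  refine ⟨qq τ, ⟨1, 3, one_pos, fun x => ⟨?_, ?_⟩⟩, fun x y h1 h2 => ?_⟩
  · rw [one_mul]
    refine (pow_le_pow_iff_left₀ (norm_nonneg _) (apply_nonneg _ _) two_ne_zero).1 ?_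
    rw [qq_sq]
    nlinarith [sq_nonneg ‖TT τ (x : LL)‖]
  · refine (pow_le_pow_iff_left₀ (apply_nonneg _ _) (by positivity) two_ne_zero).1 ?_
    rw [qq_sq]
    have h1 := norm_TT_le τ (x : LL)
    have h2 : ‖(x : LL)‖ = ‖x‖ := rfl
    rw [h2] at h1
    nlinarith [norm_nonneg x, norm_nonneg (TT τ (x : LL))]
  · have h3 : qq τ (x + y) ^ 2 = 2 * qq τ x ^ 2 + 2 * qq τ y ^ 2 := by
      have h4 : qq τ (x + y) ^ 2 = 4 * qq τ x ^ 2 := by rw [h1]; ring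
      have h5 : qq τ (x + y) ^ 2 = 4 * qq τ y ^ 2 := by rw [h2]; ring
      linarith
    rw [qq_sq, qq_sq, qq_sq] at h3
    have h4 := parallelogram_law_with_norm ℝ (TT τ (x : LL)) (TT τ (y : LL))
    have h5 : TT τ ((x + y : XX) : LL) = TT τ (x : LL) + TT τ (y : LL) := by
      rw [Submodule.coe_add, map_add]
    rw [h5] at h3
    have h6 : ‖x + y‖ ≤ ‖x‖ + ‖y‖ := norm_add_le _ _
    have h7 : ‖TT τ (x : LL) - TT τ (y : LL)‖ = 0 := by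
      have h8 : ‖TT τ (x : LL) - TT τ (y : LL)‖ ^ 2 ≤ 0 := by
        nlinarith [norm_nonneg (x + y), sq_nonneg (‖x‖ - ‖y‖), norm_nonneg x, norm_nonneg y]
      nlinarith [norm_nonneg (TT τ (x : LL) - TT τ (y : LL))]
    have h9 : TT τ ((x - y : XX) : LL) = 0 := by
      rw [Submodule.coe_sub, map_sub]
      exact norm_eq_zero.1 h7
    have h10 := eq_zero_of_TT hτ (x - y).2 h9
    exact sub_eq_zero.1 (Subtype.ext h10)

end Pool.Agent.R278.Rot
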