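import Pool.Agent.R278.Rot.Gen

/-!
# The strong Gurarii space generated by the codes
-/

open Set Filter Topology
open scoped ENNReal

namespace Pool.Agent.R278.Rot

/-- The space. -/
noncomputable def XX : Submodule ℝ LL := (Submodule.span ℝ (range gen)).topologicalClosure

theorem gen_mem (c : Code) : gen c ∈ XX :=
  Submodule.le_topologicalClosure _ (Submodule.subset_span (mem_range_self c))

instance : CompleteSpace XX :=
  (Submodule.isClosed_topologicalClosure _).completeSpace_coe

theorem exists_ch (x : ℕ → LL) (hx : ∀ t, x t ∈ XX) :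
    ∃ (ch : ℕ → Code) (A : ℕ → ℕ → (ℕ →₀ ℝ)),
      ∀ t, Tendsto (fun m => comb (fun n => gen (ch n)) (A t m)) atTop (𝓝 (x t)) := by
  classical
  have h1 : ∀ t m : ℕ, ∃ z : Code →₀ ℝ, ‖(z.sum fun i a => a • gen i) - x t‖ < 1 / (m + 1) := by
    intro t m
    have h2 : x t ∈ closure ((Submodule.span ℝ (range gen) : Submodule ℝ LL) : Set LL) := hx t
    rw [Metric.mem_closure_iff] at h2
    obtain ⟨b, hb, hb2⟩ := h2 (1 / (m + 1)) (by positivity)
    obtain ⟨z, hz⟩ := Finsupp.mem_span_range_iff_exists_finsupp.1 hb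
    refine ⟨z, ?_⟩
    rw [hz, ← dist_eq_norm, dist_comm]
    exact hb2
  choose z hz using h1
  set S : Set Code := {Code.nil} ∪ ⋃ t, ⋃ m, ((z t m).support : Set Code) with hS
  have hSc : S.Countable := (countable_singleton _).union
    (countable_iUnion fun t => countable_iUnion fun m => (z t m).support.finite_toSet.countable)
  obtain ⟨ch, hch⟩ := hSc.exists_eq_range ⟨Code.nil, by simp [hS]⟩
  have h3 : ∀ i : Code, ∃ n, i ∈ S → ch n = i := by
    intro i
    by_cases hi : i ∈ S
    · rw [hch] at hi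
      obtain ⟨n, hn⟩ := hi
      exact ⟨n, fun _ => hn⟩
    · exact ⟨0, fun h => absurd h hi⟩
  choose σ hσ using h3
  refine ⟨ch, fun t m => (z t m).mapDomain σ, fun t => ?_⟩
  have h4 : ∀ m, comb (fun n => gen (ch n)) ((z t m).mapDomain σ) =
      (z t m).sum fun i a => a • gen i := by
    intro m
    unfold comb
    rw [Finsupp.sum_mapDomain_index (h := fun n r => r • (fun n => gen (ch n)) n)
      (fun _ => zero_smul _ _) (fun _ _ _ => add_smul _ _ _)]
    refine Finsupp.sum_congr fun i hi => ?_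
    have h5 : ch (σ i) = i := by
      apply hσ i
      rw [hS]
      refine Or.inr ?_
      simp only [mem_iUnion]
      exact ⟨t, m, hi⟩
    simp only [h5]
  rw [tendsto_iff_norm_sub_tendsto_zero]
  refine squeeze_zero (fun _ => norm_nonneg _) (fun m => ?_) tendsto_one_div_add_atTop_nhds_zero_nat
  rw [h4]
  exact (hz t m).le

theorem one_step {F : Type*} [NormedAddCommGroup F] [NormedSpace ℝ F] [FiniteDimensional ℝ F]
    (E : Submodule ℝ F) (j : E →ₗᵢ[ℝ] LL) (hj : ∀ e, j e ∈ XX) (v : F) :
    ∃ x ∈ XX, ∀ e : E, ‖j e + x‖ = ‖(e : F) + v‖ := by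
  set e : ℕ → E := TopologicalSpace.denseSeq E with he
  have hden : DenseRange e := TopologicalSpace.denseRange_denseSeq E
  obtain ⟨ch, A, hA⟩ := exists_ch (fun t => j (e t)) (fun t => hj _)
  set p : ℕ → ℝ := fun t => ‖(e t : F) + v‖ with hp
  set d : Dat := (A, p) with hd
  have hY : ∀ t, Y d (fun n => gen (ch n)) t = j (e t) := fun t => (hA t).limUnder_eq
  have hV : Valid d (fun n => gen (ch n)) := by
    refine ⟨fun t => ?_, fun s t => ?_, ?_⟩
    · rw [hY]
      exact hA t
    · rw [hY, hY, ← map_sub, j.norm_map]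
      have h1 : ((e s - e t : E) : F) = ((e s : F) + v) - ((e t : F) + v) := by
        push_cast
        abel
      have h0 : ‖e s - e t‖ = ‖((e s - e t : E) : F)‖ := rfl
      rw [h0, h1]
      exact norm_sub_le _ _
    · have h2 : Submodule.span ℝ (range (Y d (fun n => gen (ch n)))) ≤
          LinearMap.range j.toLinearMap := by
        rw [Submodule.span_le]
        rintro _ ⟨t, rfl⟩
        rw [hY]
        exact ⟨e t, rfl⟩
      exact Submodule.finiteDimensional_of_le h2
  refine ⟨gen (.mk d ch), gen_mem _, ?_⟩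
  have key : ∀ t, ‖j (e t) + gen (.mk d ch)‖ = ‖(e t : F) + v‖ := by
    intro t₀
    refine le_antisymm ?_ ?_
    · have := norm_add_gen_le hV t₀
      rwa [hY] at this
    · obtain ⟨ψ, hψ1, hψ2⟩ := exists_dual_vector'' ℝ ((e t₀ : F) + v)
      obtain ⟨Φ, hΦ1, hΦ2⟩ := exists_extension_norm_eq (LinearMap.range j.toLinearMap)
        ((ψ.comp E.subtypeL).comp (j.equivRange.symm.toContinuousLinearEquiv :
          LinearMap.range j.toLinearMap →L[ℝ] E))
      have hΦn : ‖Φ‖ ≤ 1 := by
        rw [hΦ2]
        refine ContinuousLinearMap.opNorm_le_bound _ zero_le_one fun y => ?_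
        have h3 : ‖ψ ((j.equivRange.symm y : E) : F)‖ ≤ 1 * ‖((j.equivRange.symm y : E) : F)‖ :=
          (ψ.le_opNorm _).trans (mul_le_mul_of_nonneg_right hψ1 (norm_nonneg _))
        have h4 : ‖((j.equivRange.symm y : E) : F)‖ = ‖y‖ := by
          rw [← Submodule.coe_norm, LinearIsometryEquiv.norm_map]
        rw [h4] at h3
        exact h3
      have hΦj : ∀ x : E, Φ (j x) = ψ x := by
        intro x
        have h3 := hΦ1 ⟨j x, ⟨x, rfl⟩⟩
        rw [h3]
        have h4 : j.equivRange.symm ⟨j x, ⟨x, rfl⟩⟩ = x := by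
          rw [LinearIsometryEquiv.symm_apply_eq]
          rfl
        change ψ ((j.equivRange.symm ⟨j x, ⟨x, rfl⟩⟩ : E) : F) = ψ x
        rw [h4]
      have hΦb : ∀ x, |(Φ : LL →ₗ[ℝ] ℝ) x| ≤ ‖x‖ := by
        intro x
        have := Φ.le_opNorm x
        rw [Real.norm_eq_abs] at this
        exact this.trans (by nlinarith [norm_nonneg x])
      obtain ⟨θ, hθ1, hθ2⟩ := exists_point hΦb (.mk d ch)
      have hYθ : ∀ t, (Y d (fun n => gen (ch n)) t) θ = ψ (e t) := by
        intro t
        have h5 := agree_Y (Φ := ev θ) (abs_ev_le θ) hΦb hV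
          (fun n => hθ2 (ch n) (rk_lt d ch n)) t
        rw [ev_apply] at h5
        rw [h5, hY]
        exact hΦj _
      have hg : ψ v ≤ gen (.mk d ch) θ := by
        rw [gen_valid hV]
        simp only [hYθ]
        unfold val
        rw [hθ1]
        simp only [sub_self, zero_mul, one_mul, zero_add]
        refine le_ciInf fun t => ?_
        have h6 : ψ ((e t : F) + v) ≤ ‖(e t : F) + v‖ := by
          refine (le_abs_self _).trans ?_
          rw [← Real.norm_eq_abs]
          refine (ψ.le_opNorm _).trans ?_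
          nlinarith [norm_nonneg ((e t : F) + v)]
        rw [map_add] at h6
        have : d.2 t = ‖(e t : F) + v‖ := rfl
        rw [this]
        linarith
      have h7 := abs_ev_le θ (j (e t₀) + gen (.mk d ch))
      rw [ev_apply, lp.coeFn_add, Pi.add_apply] at h7
      have h8 := hYθ t₀
      rw [hY] at h8
      rw [h8] at h7
      rw [map_add] at hψ2
      have h9 := (le_abs_self _).trans h7
      have h10 : ψ (e t₀) + ψ v = ‖(e t₀ : F) + v‖ := by
        rw [hψ2]
        rfl
      linarith
  have hc1 : Continuous fun x : E => ‖j x + gen (.mk d ch)‖ :=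
    ((j.continuous).add continuous_const).norm
  have hc2 : Continuous fun x : E => ‖(x : F) + v‖ :=
    (continuous_subtype_val.add continuous_const).norm
  have := hden.equalizer hc1 hc2 (funext key)
  exact fun x => congrFun this x

/-- One-point extensions give all extensions. -/
theorem extend_all {V : Type*} [NormedAddCommGroup V] [NormedSpace ℝ V] {F : Type*}
    [NormedAddCommGroup F] [NormedSpace ℝ F] [FiniteDimensional ℝ F]
    (h1 : ∀ (E : Submodule ℝ F) (j : E →ₗᵢ[ℝ] V) (v : F), ∃ x : V, ∀ e : E,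
      ‖j e + x‖ = ‖(e : F) + v‖) (n : ℕ) :
    ∀ (E : Submodule ℝ F) (j : E →ₗᵢ[ℝ] V), Module.finrank ℝ F - Module.finrank ℝ E = n →
      ∃ g : F →ₗᵢ[ℝ] V, ∀ e : E, g (e : F) = j e := by
  induction n using Nat.strong_induction_on with
  | _ n ih =>
    intro E j hn
    by_cases hE : E = ⊤
    · subst hE
      refine ⟨j.comp ⟨(Submodule.topEquiv.symm : F ≃ₗ[ℝ] (⊤ : Submodule ℝ F)).toLinearMap,
        fun x => rfl⟩, fun e => ?_⟩
      rfl
    · obtain ⟨v, hv⟩ : ∃ v, v ∉ E := by
        by_contra hcon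
        push Not at hcon
        exact hE (Submodule.eq_top_iff'.2 hcon)
      obtain ⟨x, hx⟩ := h1 E j v
      set f : F →ₗ.[ℝ] V := ⟨E, j.toLinearMap⟩ with hf
      set f' := f.supSpanSingleton v x hv with hf'
      have hf'e : ∀ (e : E) (s : ℝ) (h : (e : F) + s • v ∈ f'.domain),
          f' ⟨(e : F) + s • v, h⟩ = j e + s • x := by
        intro e s h
        exact LinearPMap.supSpanSingleton_apply_mk f v x hv (e : F) e.2 s
      have hnorm : ∀ z : f'.domain, ‖f' z‖ = ‖(z : F)‖ := by
        rintro ⟨z, hz⟩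
        obtain ⟨e, he, w, hw, rfl⟩ := Submodule.mem_sup.1 hz
        obtain ⟨s, rfl⟩ := Submodule.mem_span_singleton.1 hw
        rw [hf'e ⟨e, he⟩ s hz]
        rcases eq_or_ne s 0 with hs | hs
        · subst hs
          simp only [zero_smul, add_zero]
          exact j.norm_map ⟨e, he⟩
        · have h2 := hx (s⁻¹ • ⟨e, he⟩)
          have h3 : j ⟨e, he⟩ + s • x = s • (j (s⁻¹ • ⟨e, he⟩) + x) := by
            rw [map_smul, smul_add, smul_smul, mul_inv_cancel₀ hs, one_smul]
          have h4 : e + s • v = s • (((s⁻¹ • ⟨e, he⟩ : E) : F) + v) := by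
            push_cast
            rw [smul_add, smul_smul, mul_inv_cancel₀ hs, one_smul]
          change ‖j ⟨e, he⟩ + s • x‖ = ‖e + s • v‖
          rw [h3, h4, norm_smul, norm_smul, h2]
      have hlt : E < f'.domain := by
        refine lt_of_le_of_ne le_sup_left ?_
        intro h
        apply hv
        rw [h]
        exact Submodule.mem_sup_right (Submodule.mem_span_singleton_self v)
      have hfr := Submodule.finrank_lt_finrank_of_lt hlt
      have hfr2 := Submodule.finrank_le f'.domain
      obtain ⟨g, hg⟩ := ih (Module.finrank ℝ F - Module.finrank ℝ f'.domain) (by omega)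
        f'.domain ⟨f'.toFun, fun z => hnorm z⟩ rfl
      refine ⟨g, fun e => ?_⟩
      have h5 := hg ⟨(e : F), hlt.le e.2⟩
      rw [h5]
      have h6 := hf'e e 0 (by simpa using hlt.le e.2)
      simp only [zero_smul, add_zero] at h6
      exact h6

/-- `XX` is a strong Gurarii space. -/
theorem strongGurarii (F : Type) [NormedAddCommGroup F] [NormedSpace ℝ F] [FiniteDimensional ℝ F]
    (E : Submodule ℝ F) (f : E →ₗᵢ[ℝ] XX) : ∃ g : F →ₗᵢ[ℝ] XX, ∀ x : E, g (x : F) = f x := by
  refine extend_all (fun E j v => ?_) _ E f rfl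
  obtain ⟨x, hx, h⟩ := one_step E (XX.subtypeₗᵢ.comp j) (fun e => (j e).2) v
  exact ⟨⟨x, hx⟩, fun e => h e⟩

end Pool.Agent.R278.Rot
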